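import Pool.Agent.helper41.Sch.Defs

/-!
Touching cones of convex bodies in three-space: the span of the touching cone of `K` at `u` is the
space of the directions in which the second difference of the support function vanishes.
-/

open scoped Pointwise ContDiff
open MeasureTheory Set Filter Topology

namespace Pool.Agent.helper41.Sch

theorem TC_bdd {K : Set E3} (hK : IsBody K) (u : E3) :
    BddAbove ((fun x : E3 => inner ℝ x u) '' K) :=
  (hK.1.image (by fun_prop)).bddAbove

theorem TC_le {K : Set E3} (hK : IsBody K) {x : E3} (hx : x ∈ K) (u : E3) :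
    inner ℝ x u ≤ hE K u :=
  le_csSup (TC_bdd hK u) ⟨x, hx, rfl⟩

theorem TC_exists {K : Set E3} (hK : IsBody K) (u : E3) : ∃ x ∈ K, inner ℝ x u = hE K u := by
  obtain ⟨x, hx, h⟩ := hK.1.exists_sSup_image_eq hK.2.2 (f := fun x : E3 => inner ℝ x u)
    (by fun_prop)
  exact ⟨x, hx, h.symm⟩

theorem TC_mem_iff {K : Set E3} (hK : IsBody K) {x : E3} (hx : x ∈ K) (v : E3) :
    v ∈ normalCone K x ↔ inner ℝ x v = hE K v := by
  constructor
  · intro h
    refine le_antisymm (TC_le hK hx v) ?_
    obtain ⟨y, hy, hyv⟩ := TC_exists hK v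
    rw [← hyv]
    have := h y hy
    rw [inner_sub_right, real_inner_comm y v, real_inner_comm x v] at this
    linarith
  · intro h y hy
    have := TC_le hK hy v
    rw [← h] at this
    rw [inner_sub_right, real_inner_comm y v, real_inner_comm x v]
    linarith

theorem TC_add_mem {K : Set E3} {x v w : E3} (hv : v ∈ normalCone K x)
    (hw : w ∈ normalCone K x) : v + w ∈ normalCone K x := by
  intro y hy
  rw [inner_add_left]
  have h1 := hv y hy
  have h2 := hw y hy
  linarith

theorem TC_smul_mem {K : Set E3} {x v : E3} (hv : v ∈ normalCone K x) {c : ℝ} (hc : 0 ≤ c) :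
    c • v ∈ normalCone K x := by
  intro y hy
  rw [real_inner_smul_left]
  exact mul_nonpos_of_nonneg_of_nonpos hc (hv y hy)

theorem TC_convex (K : Set E3) (x : E3) : Convex ℝ (normalCone K x) := by
  intro v hv w hw a b ha hb _
  exact TC_add_mem (TC_smul_mem hv ha) (TC_smul_mem hw hb)

theorem TC_shrink {K : Set E3} {x u v : E3} (hu : u ∈ normalCone K x) {ε δ : ℝ} (hδ : 0 < δ)
    (hδε : δ ≤ ε) (h : u + ε • v ∈ normalCone K x) : u + δ • v ∈ normalCone K x := by
  have hε : 0 < ε := lt_of_lt_of_le hδ hδε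
  have h1 : u + δ • v = (δ / ε) • (u + ε • v) + (1 - δ / ε) • u := by
    rw [smul_add, smul_smul, div_mul_cancel₀ _ hε.ne', sub_smul, one_smul]
    abel
  rw [h1]
  refine TC_add_mem (TC_smul_mem h (by positivity)) (TC_smul_mem hu ?_)
  rw [sub_nonneg, div_le_one hε]
  exact hδε

/-- The lineality-type space of the normal cone at `u`. -/
noncomputable def TCW (K : Set E3) (x u : E3) (hu : u ∈ normalCone K x) : Submodule ℝ E3 where
  carrier := {v | ∃ ε : ℝ, 0 < ε ∧ u + ε • v ∈ normalCone K x ∧ u - ε • v ∈ normalCone K x}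
  zero_mem' := ⟨1, one_pos, by simpa using hu, by simpa using hu⟩
  add_mem' := by
    rintro v w ⟨ε, hε, h1, h2⟩ ⟨δ, hδ, h3, h4⟩
    have hs : 0 < ε + δ := by positivity
    refine ⟨ε * δ / (ε + δ), by positivity, ?_, ?_⟩
    · have : u + (ε * δ / (ε + δ)) • (v + w) =
          (δ / (ε + δ)) • (u + ε • v) + (ε / (ε + δ)) • (u + δ • w) := by
        match_scalars <;> field_simp
        ring
      rw [this]
      exact TC_add_mem (TC_smul_mem h1 (by positivity)) (TC_smul_mem h3 (by positivity))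
    · have : u - (ε * δ / (ε + δ)) • (v + w) =
          (δ / (ε + δ)) • (u - ε • v) + (ε / (ε + δ)) • (u - δ • w) := by
        match_scalars <;> field_simp
        ring
      rw [this]
      exact TC_add_mem (TC_smul_mem h2 (by positivity)) (TC_smul_mem h4 (by positivity))
  smul_mem' := by
    rintro c v ⟨ε, hε, h1, h2⟩
    rcases lt_trichotomy c 0 with hc | hc | hc
    · refine ⟨ε / (-c), div_pos hε (by linarith), ?_, ?_⟩
      · have : u + (ε / (-c)) • (c • v) = u - ε • v := by
          rw [smul_smul, div_neg, neg_mul, div_mul_cancel₀ _ hc.ne, neg_smul, sub_eq_add_neg]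
        rw [this]; exact h2
      · have : u - (ε / (-c)) • (c • v) = u + ε • v := by
          rw [smul_smul, div_neg, neg_mul, div_mul_cancel₀ _ hc.ne, neg_smul, sub_neg_eq_add]
        rw [this]; exact h1
    · subst hc
      exact ⟨1, one_pos, by simpa using hu, by simpa using hu⟩
    · refine ⟨ε / c, div_pos hε hc, ?_, ?_⟩
      · have : u + (ε / c) • (c • v) = u + ε • v := by
          rw [smul_smul, div_mul_cancel₀ _ hc.ne']
        rw [this]; exact h1
      · have : u - (ε / c) • (c • v) = u - ε • v := by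
          rw [smul_smul, div_mul_cancel₀ _ hc.ne']
        rw [this]; exact h2

theorem TC_mem_W {K : Set E3} {x u : E3} (hu : u ∈ normalCone K x) (v : E3) :
    v ∈ TCW K x u hu ↔
      ∃ ε : ℝ, 0 < ε ∧ u + ε • v ∈ normalCone K x ∧ u - ε • v ∈ normalCone K x :=
  Iff.rfl

theorem TC_self_mem {K : Set E3} {x u : E3} (hu : u ∈ normalCone K x) : u ∈ TCW K x u hu := by
  refine ⟨1, one_pos, ?_, ?_⟩
  · rw [one_smul]; exact TC_add_mem hu hu
  · rw [one_smul, sub_self]
    have := TC_smul_mem hu (le_refl (0 : ℝ))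
    rwa [zero_smul] at this

theorem TC_W_iff_flat {K : Set E3} (hK : IsBody K) {x u : E3} (hx : x ∈ K)
    (hu : u ∈ normalCone K x) (v : E3) : v ∈ TCW K x u hu ↔ FlatE (hE K) u v := by
  have hxu := (TC_mem_iff hK hx u).1 hu
  constructor
  · rintro ⟨ε, hε, h1, h2⟩
    refine ⟨ε, hε, ?_⟩
    rw [← (TC_mem_iff hK hx _).1 h1, ← (TC_mem_iff hK hx _).1 h2, ← hxu, inner_add_right,
      inner_sub_right]
    ring
  · rintro ⟨ε, hε, h⟩
    have h1 := TC_le hK hx (u + ε • v)
    have h2 := TC_le hK hx (u - ε • v)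
    have h3 : inner ℝ x (u + ε • v) + inner ℝ x (u - ε • v) = 2 * hE K u := by
      rw [inner_add_right, inner_sub_right, ← hxu]
      ring
    refine ⟨ε, hε, (TC_mem_iff hK hx _).2 (by linarith), (TC_mem_iff hK hx _).2 (by linarith)⟩

/-- A touching cone spans the space `W`. -/
theorem TC_span {K : Set E3} {x u : E3} {T : Set E3} (hu : u ∈ normalCone K x)
    (hT : IsExtreme ℝ (normalCone K x) T) (huT : u ∈ intrinsicInterior ℝ T) :
    Submodule.span ℝ T = TCW K x u hu := by
  have huT' : u ∈ T := intrinsicInterior_subset huT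
  apply le_antisymm
  · rw [Submodule.span_le]
    intro v hv
    obtain ⟨u', hu', huu'⟩ := mem_intrinsicInterior.1 huT
    have : Nonempty (affineSpan ℝ T) := ⟨u'⟩
    let v' : affineSpan ℝ T := ⟨v, subset_affineSpan ℝ T hv⟩
    let L : ℝ → affineSpan ℝ T := fun t => AffineMap.lineMap (k := ℝ) u' v' t
    have hL : Continuous L := AffineMap.lineMap_continuous
    have hL0 : L 0 = u' := AffineMap.lineMap_apply_zero u' v'
    have hnb : ∀ᶠ t in 𝓝 (0 : ℝ), L t ∈ interior ((↑) ⁻¹' T : Set (affineSpan ℝ T)) := by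
      apply hL.continuousAt.eventually
      rw [hL0]
      exact isOpen_interior.mem_nhds hu'
    rw [Metric.eventually_nhds_iff] at hnb
    obtain ⟨r, hr, hball⟩ := hnb
    have h1 := interior_subset (hball (y := -(r / 2)) (by
      rw [Real.dist_eq, sub_zero, abs_neg, abs_of_pos (by positivity)]; linarith))
    have h2 : (L (-(r / 2)) : E3) = u - (r / 2) • (v - u) := by
      simp only [L, AffineMap.lineMap_apply]
      rw [AffineSubspace.coe_vadd, Submodule.coe_smul, AffineSubspace.coe_vsub, huu']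
      simp only [v', vsub_eq_sub, vadd_eq_add, neg_smul]
      abel
    have h3 : u - (r / 2) • (v - u) ∈ normalCone K x := by
      rw [← h2]; exact hT.subset h1
    have hr2 : 0 < 1 + r / 2 := by positivity
    refine ⟨(r / 2) / (1 + r / 2), by positivity, ?_, ?_⟩
    · exact TC_add_mem hu (TC_smul_mem (hT.subset hv) (by positivity))
    · have h4 : u - ((r / 2) / (1 + r / 2)) • v =
          (1 + r / 2)⁻¹ • (u - (r / 2) • (v - u)) := by
        match_scalars <;> field_simp
        ring
      rw [h4]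
      exact TC_smul_mem h3 (by positivity)
  · intro w hw
    obtain ⟨ε, hε, h1, h2⟩ := hw
    have h3 : u ∈ openSegment ℝ (u + ε • w) (u - ε • w) := by
      refine ⟨1 / 2, 1 / 2, by norm_num, by norm_num, by norm_num, ?_⟩
      match_scalars <;> ring
    have h4 := hT.left_mem_of_mem_openSegment h1 h2 huT' h3
    have h5 : w = ε⁻¹ • ((u + ε • w) - u) := by
      rw [add_sub_cancel_left, smul_smul, inv_mul_cancel₀ hε.ne', one_smul]
    rw [h5]
    exact Submodule.smul_mem _ _ (Submodule.sub_mem _ (Submodule.subset_span h4)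
      (Submodule.subset_span huT'))

/-- There is a touching cone. -/
theorem TC_exists_cone {K : Set E3} {x u : E3} (hx : x ∈ K) (hu : u ∈ normalCone K x) :
    ∃ T, IsTouchingCone K u T := by
  set W := TCW K x u hu with hW
  have huW : u ∈ W := TC_self_mem hu
  refine ⟨normalCone K x ∩ W, ⟨x, hx, ⟨inter_subset_left, ?_⟩⟩,
    (TC_convex K x).inter W.convex, ?_⟩
  · intro a ha b hb z hz hzs
    refine ⟨ha, ?_⟩
    obtain ⟨α, β, hα, hβ, hαβ, rfl⟩ := hzs
    obtain ⟨ε, hε, h1, h2⟩ := hz.2
    refine ⟨ε * α, by positivity, ?_, ?_⟩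
    · exact TC_add_mem hu (TC_smul_mem ha (by positivity))
    · have h3 : u - (ε * α) • a = (u - ε • (α • a + β • b)) + (ε * β) • b := by
        match_scalars <;> ring
      rw [h3]
      exact TC_add_mem h2 (TC_smul_mem hb (by positivity))
  · -- the relative interior
    let T' : Set W := (↑) ⁻¹' (normalCone K x)
    have hconv : Convex ℝ T' := (TC_convex K x).linear_preimage W.subtype
    have himg : (W.subtypeₗᵢ.toAffineIsometry) '' T' = normalCone K x ∩ W := by
      ext v
      constructor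
      · rintro ⟨w, hw, rfl⟩
        exact ⟨hw, w.2⟩
      · rintro ⟨h1, h2⟩
        exact ⟨⟨v, h2⟩, h1, rfl⟩
    have key : (⟨u, huW⟩ : W) ∈ interior T' := by
      have h0 : (0 : W) ∈ T' := by
        have := TC_smul_mem hu (le_refl (0 : ℝ))
        rw [zero_smul] at this
        exact this
      have huT' : (⟨u, huW⟩ : W) ∈ T' := hu
      have hspan : Submodule.span ℝ T' = ⊤ := by
        rw [eq_top_iff]
        rintro ⟨w, hw⟩ _
        obtain ⟨ε, hε, h1, h2⟩ := hw
        have h3 : (⟨u + ε • w, W.add_mem huW (W.smul_mem _ ⟨ε, hε, h1, h2⟩)⟩ : W) ∈ T' := h1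
        have h5 : (⟨w, ⟨ε, hε, h1, h2⟩⟩ : W) =
            ε⁻¹ • ((⟨u + ε • w, W.add_mem huW (W.smul_mem _ ⟨ε, hε, h1, h2⟩)⟩ : W) -
              ⟨u, huW⟩) := by
          apply Subtype.ext
          simp only [Submodule.coe_smul, Submodule.coe_sub]
          rw [add_sub_cancel_left, smul_smul, inv_mul_cancel₀ hε.ne', one_smul]
        rw [h5]
        exact Submodule.smul_mem _ _ (Submodule.sub_mem _ (Submodule.subset_span h3)
          (Submodule.subset_span huT'))
      have haff : affineSpan ℝ T' = ⊤ := by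
        apply SetLike.coe_injective
        have h6 := affineSpan_insert_zero (k := ℝ) T'
        rw [insert_eq_of_mem h0, hspan] at h6
        rw [h6]
        rfl
      obtain ⟨z, hz⟩ := hconv.interior_nonempty_iff_affineSpan_eq_top.2 haff
      obtain ⟨ε, hε, h1, h2⟩ := z.2
      obtain ⟨δ, hδ, hδ1, h2'⟩ : ∃ δ : ℝ, 0 < δ ∧ δ < 1 ∧
          u - δ • (z : E3) ∈ normalCone K x := by
        have hε' : 0 < min ε (1 / 2) := by positivity
        refine ⟨min ε (1 / 2), hε', lt_of_le_of_lt (min_le_right _ _) (by norm_num), ?_⟩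
        have h3 : u + ε • (-(z : E3)) ∈ normalCone K x := by
          rwa [smul_neg, ← sub_eq_add_neg]
        have h4 := TC_shrink hu hε' (min_le_left ε (1 / 2)) h3
        rwa [smul_neg, ← sub_eq_add_neg] at h4
      have hδ' : 0 < 1 - δ := by linarith
      set y : W := (1 - δ)⁻¹ • ((⟨u, huW⟩ : W) - δ • z) with hy
      have hyT : y ∈ T' := TC_smul_mem h2' (by positivity)
      have h6 : (⟨u, huW⟩ : W) ∈ openSegment ℝ z y := by
        refine ⟨δ, 1 - δ, hδ, hδ', by ring, ?_⟩
        rw [hy, smul_smul, mul_inv_cancel₀ hδ'.ne', one_smul]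
        abel
      exact hconv.openSegment_interior_self_subset_interior hz hyT h6
    have := interior_subset_intrinsicInterior (𝕜 := ℝ) key
    rw [← himg, AffineIsometry.intrinsicInterior_image]
    exact ⟨_, this, rfl⟩

theorem touching_span {K : Set E3} (hK : IsBody K) {u : E3} (hu : u ≠ 0) :
    ∃ W : Submodule ℝ E3, u ∈ W ∧ (∀ v, v ∈ W ↔ FlatE (hE K) u v) ∧
      ∀ k, DimPerpGE K u k ↔ k + Module.finrank ℝ W ≤ 3 := by
  obtain ⟨x, hx, hxu⟩ := TC_exists hK u
  have huN : u ∈ normalCone K x := (TC_mem_iff hK hx u).2 hxu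
  refine ⟨TCW K x u huN, TC_self_mem huN, fun v => TC_W_iff_flat hK hx huN v, ?_⟩
  -- all touching cones span this space
  have hall : ∀ T, IsTouchingCone K u T → Submodule.span ℝ T = TCW K x u huN := by
    rintro T ⟨⟨x', hx', hT⟩, _, huT⟩
    have huN' : u ∈ normalCone K x' := hT.subset (intrinsicInterior_subset huT)
    rw [TC_span huN' hT huT]
    ext v
    rw [TC_W_iff_flat hK hx' huN', TC_W_iff_flat hK hx huN]
  have hdim : ∀ T, IsTouchingCone K u T →
      Module.finrank ℝ (TCW K x u huN) + Module.finrank ℝ (Submodule.span ℝ T)ᗮ = 3 := by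
    intro T hT
    rw [hall T hT]
    have := Submodule.finrank_add_finrank_orthogonal (TCW K x u huN)
    rw [this, finrank_euclideanSpace_fin]
  intro k
  constructor
  · rintro ⟨T, hT, hk⟩
    have := hdim T hT
    omega
  · intro hk
    obtain ⟨T, hT⟩ := TC_exists_cone hx huN
    refine ⟨T, hT, ?_⟩
    have := hdim T hT
    omega

theorem TC_add {K L : Set E3} (hK : IsBody K) (hL : IsBody L) (v : E3) :
    IsBody (K + L) ∧ hE (K + L) v = hE K v + hE L v := by
  have hKL : IsBody (K + L) := ⟨hK.1.add hL.1, hK.2.1.add hL.2.1, hK.2.2.add hL.2.2⟩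
  refine ⟨hKL, le_antisymm ?_ ?_⟩
  · obtain ⟨z, hz, hzv⟩ := TC_exists hKL v
    obtain ⟨x, hx, y, hy, rfl⟩ := hz
    rw [← hzv]
    simp only [inner_add_left]
    exact add_le_add (TC_le hK hx v) (TC_le hL hy v)
  · obtain ⟨x, hx, hxv⟩ := TC_exists hK v
    obtain ⟨y, hy, hyv⟩ := TC_exists hL v
    rw [← hxv, ← hyv, ← inner_add_left]
    exact TC_le hKL (add_mem_add hx hy) v

theorem TC_flat_add {K L : Set E3} (hK : IsBody K) (hL : IsBody L) (u v : E3) :
    FlatE (hE (K + L)) u v ↔ FlatE (hE K) u v ∧ FlatE (hE L) u v := by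
  obtain ⟨x, hx, hxu⟩ := TC_exists hK u
  obtain ⟨y, hy, hyu⟩ := TC_exists hL u
  have huK : u ∈ normalCone K x := (TC_mem_iff hK hx u).2 hxu
  have huL : u ∈ normalCone L y := (TC_mem_iff hL hy u).2 hyu
  have hN : ∀ w, w ∈ normalCone (K + L) (x + y) ↔ w ∈ normalCone K x ∧ w ∈ normalCone L y := by
    intro w
    have hKL := (TC_add hK hL w).1
    rw [TC_mem_iff hKL (add_mem_add hx hy), TC_mem_iff hK hx, TC_mem_iff hL hy,
      (TC_add hK hL w).2, inner_add_left]
    have h1 := TC_le hK hx w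
    have h2 := TC_le hL hy w
    constructor
    · intro h
      constructor <;> linarith
    · rintro ⟨h3, h4⟩
      rw [h3, h4]
  have hKL := (TC_add hK hL u).1
  have huKL : u ∈ normalCone (K + L) (x + y) := (hN u).2 ⟨huK, huL⟩
  rw [← TC_W_iff_flat hKL (add_mem_add hx hy) huKL, ← TC_W_iff_flat hK hx huK,
    ← TC_W_iff_flat hL hy huL]
  constructor
  · rintro ⟨ε, hε, h1, h2⟩
    exact ⟨⟨ε, hε, ((hN _).1 h1).1, ((hN _).1 h2).1⟩, ⟨ε, hε, ((hN _).1 h1).2, ((hN _).1 h2).2⟩⟩
  · rintro ⟨⟨ε, hε, h1, h2⟩, ⟨δ, hδ, h3, h4⟩⟩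
    have hm : 0 < min ε δ := lt_min hε hδ
    refine ⟨min ε δ, hm, ?_, ?_⟩
    · exact (hN _).2 ⟨TC_shrink huK hm (min_le_left _ _) h1,
        TC_shrink huL hm (min_le_right _ _) h3⟩
    · have e1 : ∀ c : ℝ, u - c • v = u + c • (-v) := by
        intro c
        rw [smul_neg, sub_eq_add_neg]
      rw [e1] at h2 h4 ⊢
      exact (hN _).2 ⟨TC_shrink huK hm (min_le_left _ _) h2,
        TC_shrink huL hm (min_le_right _ _) h4⟩

theorem TC_dim_one {K : Set E3} (hK : IsBody K) {u : E3} (hu : u ≠ 0) :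
    DimPerpGE K u 1 ↔ ∃ v, ¬ FlatE (hE K) u v := by
  obtain ⟨W, _, hW, hdim⟩ := touching_span hK hu
  rw [hdim]
  have h3 : Module.finrank ℝ E3 = 3 := finrank_euclideanSpace_fin
  constructor
  · intro h
    by_contra hcon
    push Not at hcon
    have : W = ⊤ := by
      rw [eq_top_iff]
      intro v _
      exact (hW v).2 (hcon v)
    rw [this, finrank_top, h3] at h
    omega
  · rintro ⟨v, hv⟩
    have hlt : W < ⊤ := by
      rw [lt_top_iff_ne_top]
      intro h
      apply hv
      rw [← hW, h]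
      trivial
    have := Submodule.finrank_lt_finrank_of_lt hlt
    rw [finrank_top, h3] at this
    omega

theorem mem_extreme_iff {K L : Set E3} (hK : IsBody K) (hL : IsBody L) (u : E3)
    (hu : u ∈ Metric.sphere (0 : E3) 1) :
    u ∈ extremeDirections K L ↔ (∃ v, ¬ FlatE (hE K) u v) ∧ (∃ v, ¬ FlatE (hE L) u v) ∧
      ∀ v, FlatE (hE K) u v → FlatE (hE L) u v → ∃ t : ℝ, v = t • u := by
  have hu0 : u ≠ 0 := by
    rintro rfl
    simp at hu
  have hKL := (TC_add hK hL u).1
  obtain ⟨W, huW, hW, hdim⟩ := touching_span hKL hu0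
  have key : DimPerpGE (K + L) u 2 ↔
      ∀ v, FlatE (hE K) u v → FlatE (hE L) u v → ∃ t : ℝ, v = t • u := by
    rw [hdim]
    have hle : Submodule.span ℝ {u} ≤ W := by
      rw [Submodule.span_singleton_le_iff_mem]
      exact huW
    have h1 : Module.finrank ℝ (Submodule.span ℝ {u}) = 1 := finrank_span_singleton hu0
    constructor
    · intro h v hv1 hv2
      have heq : Submodule.span ℝ {u} = W :=
        Submodule.eq_of_le_of_finrank_le hle (by omega)
      have hvW : v ∈ W := (hW v).2 ((TC_flat_add hK hL u v).2 ⟨hv1, hv2⟩)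
      rw [← heq, Submodule.mem_span_singleton] at hvW
      obtain ⟨t, ht⟩ := hvW
      exact ⟨t, ht.symm⟩
    · intro h
      have hle2 : W ≤ Submodule.span ℝ {u} := by
        intro v hv
        have hf := (TC_flat_add hK hL u v).1 ((hW v).1 hv)
        obtain ⟨t, ht⟩ := h v hf.1 hf.2
        rw [Submodule.mem_span_singleton]
        exact ⟨t, ht.symm⟩
      have := Submodule.finrank_mono hle2
      omega
  rw [← TC_dim_one hK hu0, ← TC_dim_one hL hu0, ← key]
  constructor
  · rintro ⟨_, h1, h2, h3⟩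
    exact ⟨h1, h2, h3⟩
  · rintro ⟨h1, h2, h3⟩
    exact ⟨hu, h1, h2, h3⟩

end Pool.Agent.helper41.Sch
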